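import Mathlib
import Pool.Agent.Y647.RG.ClawIter

/-!
# The generic rank in `ℝ³` of claw-free graphs

The rank formula and the resulting characterization of generic rigidity in three dimensions hold
for every finite claw-free graph.
-/

set_option autoImplicit false

namespace Pool.Agent.Results.MP_37c7bf_co.AllClawFree

open Finset Pool.Agent.H789R5 Pool.Agent.H283R2.DR

/-- A family of sets of vertices is a two-fold cover of `G` if each vertex lies in at most two
members and each edge lies inside a member. -/
def TwoFoldCover {V : Type} (G : SimpleGraph V) {k : ℕ} (X : Fin k → Finset V) : Prop :=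
  (∀ v, {i | v ∈ X i}.ncard ≤ 2) ∧ ∀ u v, G.Adj u v → ∃ i, u ∈ X i ∧ v ∈ X i

/-- the rank of the complete graph with `n` vertices: `0`, `0`, `1` for `n = 0, 1, 2`, and
`3 n - 6` for `n ≥ 3` -/
def rk (n : ℕ) : ℕ := if n ≤ 1 then 0 else if n = 2 then 1 else 3 * n - 6

/-- no vertex has three pairwise non-adjacent neighbours -/
def ClawFree {V : Type} (G : SimpleGraph V) : Prop :=
  ∀ v a b c, G.Adj v a → G.Adj v b → G.Adj v c → a ≠ b → a ≠ c → b ≠ c →
    G.Adj a b ∨ G.Adj a c ∨ G.Adj b c

theorem rho_eq (n : ℕ) : Pool.Agent.W824.BJ.rho n = rk n := rfl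

theorem offDiag_sum {ι : Type} [Fintype ι] [LinearOrder ι] (f : ι → ι → ℕ)
    (hf : ∀ i j, f i j = f j i) :
    ∑ q ∈ (univ : Finset ι).offDiag, f q.1 q.2 =
      2 * ∑ q ∈ univ.filter (fun q : ι × ι => q.1 < q.2), f q.1 q.2 := by
  have h1 : (univ : Finset ι).offDiag = univ.filter (fun q : ι × ι => q.1 < q.2) ∪
      univ.filter (fun q : ι × ι => q.2 < q.1) := by
    ext q
    simp only [Finset.mem_offDiag, Finset.mem_univ, true_and, Finset.mem_union, Finset.mem_filter]
    exact ne_iff_lt_or_gt
  have h2 : Disjoint (univ.filter (fun q : ι × ι => q.1 < q.2))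
      (univ.filter (fun q : ι × ι => q.2 < q.1)) := by
    rw [Finset.disjoint_filter]
    intro q _ h h'
    exact absurd h (not_lt.2 h'.le)
  rw [h1, Finset.sum_union h2, two_mul]
  congr 1
  refine Finset.sum_nbij' (fun q => (q.2, q.1)) (fun q => (q.2, q.1)) ?_ ?_ ?_ ?_ ?_
  · intro q hq
    simpa using hq
  · intro q hq
    simpa using hq
  · intro q _
    rfl
  · intro q _
    rfl
  · intro q _
    exact hf _ _

theorem twoFold_of {V : Type} [Fintype V] [DecidableEq V] {k : ℕ} {X : Fin k → Finset V}
    (h : ∀ v, {i | v ∈ X i}.ncard ≤ 2) : Pool.Agent.Y647.RG.TwoFold X := by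
  intro v
  have h1 : {i | v ∈ X i} = ((univ.filter fun i => v ∈ X i : Finset (Fin k)) : Set (Fin k)) := by
    ext i
    simp
  have h2 := h v
  rw [h1, Set.ncard_coe_finset] at h2
  exact h2

/-- **The rank formula for claw-free graphs.** Let `G` be a finite claw-free graph. Then the rank of
`G` in the generic rigidity matroid of `ℝ³` is the minimum of
`|F| + ∑_i rk |X_i| - ∑_{i<j} rk |X_i ∩ X_j|` over all sets `F` of pairs of vertices and all
two-fold covers `X` of `G - F`, where `rk n` is the rank of the complete graph with `n` vertices.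
Hence a claw-free graph with at least three vertices is generically rigid in `ℝ³` if and only if
this number is at least `3 |V| - 6` for all `F` and `X`. -/
theorem result (V : Type) [Fintype V] [DecidableEq V] (G : SimpleGraph V) (hc : ClawFree G) :
    IsLeast {m : ℕ | ∃ (F : Finset (Sym2 V)) (k : ℕ) (X : Fin k → Finset V),
      TwoFoldCover (G.deleteEdges (F : Set (Sym2 V))) X ∧
      m + ∑ q ∈ univ.filter (fun q : Fin k × Fin k => q.1 < q.2), rk (X q.1 ∩ X q.2).card =
        F.card + ∑ i, rk (X i).card} (genRank 3 G) ∧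
    (3 ≤ Fintype.card V → (GenRigid 3 G ↔
      ∀ (F : Finset (Sym2 V)) (k : ℕ) (X : Fin k → Finset V),
        TwoFoldCover (G.deleteEdges (F : Set (Sym2 V))) X →
        3 * Fintype.card V +
          ∑ q ∈ univ.filter (fun q : Fin k × Fin k => q.1 < q.2), rk (X q.1 ∩ X q.2).card ≤
          F.card + ∑ i, rk (X i).card + 6)) := by
  classical
  obtain ⟨p, hp⟩ := exists_mg V 3
  have hle : ∀ (F : Finset (Sym2 V)) (k : ℕ) (X : Fin k → Finset V),
      TwoFoldCover (G.deleteEdges (F : Set (Sym2 V))) X →
      genRank 3 G + ∑ q ∈ univ.filter (fun q : Fin k × Fin k => q.1 < q.2),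
        rk (X q.1 ∩ X q.2).card ≤ F.card + ∑ i, rk (X i).card := by
    intro F k X hX
    have h1 := Pool.Agent.Y647.RG.upperF (twoFold_of hX.1) (G := G) hX.2
    have h2 := offDiag_sum (fun i j : Fin k => rk (X i ∩ X j).card)
      (fun i j => by rw [Finset.inter_comm])
    simp only [rho_eq] at h1
    have h3 : ∑ q ∈ (univ : Finset (Fin k)).offDiag, rk (X q.1 ∩ X q.2).card =
        2 * ∑ q ∈ univ.filter (fun q : Fin k × Fin k => q.1 < q.2),
          rk (X q.1 ∩ X q.2).card := by
      convert h2
    omega
  have heq : ∃ (F : Finset (Sym2 V)) (k : ℕ) (X : Fin k → Finset V),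
      TwoFoldCover (G.deleteEdges (F : Set (Sym2 V))) X ∧
      genRank 3 G + ∑ q ∈ univ.filter (fun q : Fin k × Fin k => q.1 < q.2),
        rk (X q.1 ∩ X q.2).card = F.card + ∑ i, rk (X i).card := by
    obtain ⟨F, C, _, _, Y, h1, h2, -, h3⟩ := Pool.Agent.Y647.RG.att_all hp _ G hc le_rfl
    let e := Fintype.equivFin C
    refine ⟨F, Fintype.card C, fun i => Y (e.symm i), ⟨?_, ?_⟩, ?_⟩
    · intro v
      have h4 : {i | v ∈ Y (e.symm i)} =
          (((univ.filter fun c => v ∈ Y c).map e.toEmbedding : Finset (Fin _)) :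
            Set (Fin (Fintype.card C))) := by
        ext i
        simp only [Set.mem_ofPred_eq, Finset.coe_map, Set.mem_image, Finset.mem_coe,
          Finset.mem_filter, Finset.mem_univ, true_and, Equiv.coe_toEmbedding]
        constructor
        · intro h
          exact ⟨e.symm i, h, e.apply_symm_apply i⟩
        · rintro ⟨c, hc, rfl⟩
          rw [e.symm_apply_apply]
          exact hc
      rw [h4, Set.ncard_coe_finset, Finset.card_map]
      exact h1 v
    · intro u v huv
      obtain ⟨c, hc⟩ := h2 u v huv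
      refine ⟨e c, ?_⟩
      show u ∈ Y (e.symm (e c)) ∧ v ∈ Y (e.symm (e c))
      rw [e.symm_apply_apply]
      exact hc
    · have h5 := offDiag_sum (fun i j => rk (Y (e.symm i) ∩ Y (e.symm j)).card)
        (fun i j => by rw [Finset.inter_comm])
      have h6 : ∑ i, rk (Y (e.symm i)).card = ∑ c, rk (Y c).card :=
        Equiv.sum_comp e.symm fun c => rk (Y c).card
      have h7 : ∑ q ∈ (univ : Finset (Fin (Fintype.card C))).offDiag,
          rk (Y (e.symm q.1) ∩ Y (e.symm q.2)).card =
          ∑ q ∈ (univ : Finset C).offDiag, rk (Y q.1 ∩ Y q.2).card := by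
        apply Finset.sum_bij' (fun q _ => (e.symm q.1, e.symm q.2)) (fun q _ => (e q.1, e q.2))
        · intro q hq
          rw [Finset.mem_offDiag] at hq ⊢
          exact ⟨Finset.mem_univ _, Finset.mem_univ _, fun h => hq.2.2 (e.symm.injective h)⟩
        · intro q hq
          rw [Finset.mem_offDiag] at hq ⊢
          exact ⟨Finset.mem_univ _, Finset.mem_univ _, fun h => hq.2.2 (e.injective h)⟩
        · intro q _
          simp
        · intro q _
          simp
        · intro q _
          rfl
      simp only [rho_eq] at h3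
      rw [h7] at h5
      show _ + ∑ q ∈ univ.filter
        (fun q : Fin (Fintype.card C) × Fin (Fintype.card C) => q.1 < q.2),
          rk (Y (e.symm q.1) ∩ Y (e.symm q.2)).card = F.card + ∑ i, rk (Y (e.symm i)).card
      rw [h6]
      omega
  refine ⟨⟨heq, ?_⟩, ?_⟩
  · rintro m ⟨F, k, X, hX, hm⟩
    have := hle F k X hX
    omega
  · intro hV
    rw [genRigid_iff hp hV]
    have h2 := genRank_add hp G
    constructor
    · intro h F k X hX
      have := hle F k X hX
      omega
    · intro h
      obtain ⟨F, k, X, hX, hm⟩ := heq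
      have := h F k X hX
      omega

end Pool.Agent.Results.MP_37c7bf_co.AllClawFree
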