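import Mathlib
import Pool.Agent.Y647.RG.Claw

/-!
# The generic rank in `ℝ³` of graphs whose neighbourhoods are covered by two rigid subgraphs

The rank formula and the resulting characterization of generic rigidity in three dimensions hold
for every finite graph in which the neighbours of each vertex are covered by two large rigid
subgraphs through the vertex (or by one such subgraph and one further vertex). Every claw-free graph
of minimum degree at least three in which no edge lies in exactly one or exactly two triangles is of
this kind.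
-/

set_option autoImplicit false

namespace Pool.Agent.Results.MP_37c7bf_co.ClawFreeRank

open Finset Pool.Agent.H789R5 Pool.Agent.H283R2.DR

/-- A family of sets of vertices is a two-fold cover of `G` if each vertex lies in at most two
members and each edge lies inside a member. -/
def TwoFoldCover {V : Type} (G : SimpleGraph V) {k : ℕ} (X : Fin k → Finset V) : Prop :=
  (∀ v, {i | v ∈ X i}.ncard ≤ 2) ∧ ∀ u v, G.Adj u v → ∃ i, u ∈ X i ∧ v ∈ X i

/-- the rank of the complete graph with `n` vertices: `0`, `0`, `1` for `n = 0, 1, 2`, and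
`3 n - 6` for `n ≥ 3` -/
def rk (n : ℕ) : ℕ := if n ≤ 1 then 0 else if n = 2 then 1 else 3 * n - 6

/-- `X` has at least four vertices and induces a generically rigid graph. -/
def LargeRigid {V : Type} (G : SimpleGraph V) (X : Finset V) : Prop :=
  4 ≤ X.card ∧ GenRigid 3 (G.induce (X : Set V))

/-- For each vertex `v` there are a large rigid set `X` which contains `v` and a set `Y`, which is
also a large rigid set which contains `v` or has at most one element, such that all neighbours of
`v` are in `X` or `Y`. -/
def TwoRigidNeighbourhoods {V : Type} (G : SimpleGraph V) : Prop :=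
  ∀ v, ∃ X Y : Finset V, (v ∈ X ∧ LargeRigid G X) ∧ ((v ∈ Y ∧ LargeRigid G Y) ∨ Y.card ≤ 1) ∧
    ∀ w, G.Adj v w → w ∈ X ∨ w ∈ Y

/-- no vertex has three pairwise non-adjacent neighbours -/
def ClawFree {V : Type} (G : SimpleGraph V) : Prop :=
  ∀ v a b c, G.Adj v a → G.Adj v b → G.Adj v c → a ≠ b → a ≠ c → b ≠ c →
    G.Adj a b ∨ G.Adj a c ∨ G.Adj b c

/-- the number of triangles which contain the edge `u v` -/
noncomputable def triangles {V : Type} (G : SimpleGraph V) (u v : V) : ℕ :=
  {w | G.Adj u w ∧ G.Adj v w}.ncard

theorem rho_eq (n : ℕ) : Pool.Agent.W824.BJ.rho n = rk n := rfl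

theorem offDiag_sum {ι : Type} [Fintype ι] [LinearOrder ι] (f : ι → ι → ℕ)
    (hf : ∀ i j, f i j = f j i) :
    ∑ q ∈ (univ : Finset ι).offDiag, f q.1 q.2 =
      2 * ∑ q ∈ univ.filter (fun q : ι × ι => q.1 < q.2), f q.1 q.2 := by
  have h1 : (univ : Finset ι).offDiag = univ.filter (fun q : ι × ι => q.1 < q.2) ∪
      univ.filter (fun q : ι × ι => q.2 < q.1) := by
    ext q
    simp only [Finset.mem_offDiag, Finset.mem_univ, true_and, Finset.mem_union, Finset.mem_filter]
    exact ne_iff_lt_or_gt
  have h2 : Disjoint (univ.filter (fun q : ι × ι => q.1 < q.2))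
      (univ.filter (fun q : ι × ι => q.2 < q.1)) := by
    rw [Finset.disjoint_filter]
    intro q _ h h'
    exact absurd h (not_lt.2 h'.le)
  rw [h1, Finset.sum_union h2, two_mul]
  congr 1
  refine Finset.sum_nbij' (fun q => (q.2, q.1)) (fun q => (q.2, q.1)) ?_ ?_ ?_ ?_ ?_
  · intro q hq
    simpa using hq
  · intro q hq
    simpa using hq
  · intro q _
    rfl
  · intro q _
    rfl
  · intro q _
    exact hf _ _

theorem twoFold_of {V : Type} [Fintype V] [DecidableEq V] {k : ℕ} {X : Fin k → Finset V}
    (h : ∀ v, {i | v ∈ X i}.ncard ≤ 2) : Pool.Agent.Y647.RG.TwoFold X := by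
  intro v
  have h1 : {i | v ∈ X i} = ((univ.filter fun i => v ∈ X i : Finset (Fin k)) : Set (Fin k)) := by
    ext i
    simp
  have h2 := h v
  rw [h1, Set.ncard_coe_finset] at h2
  exact h2

/-- **The rank formula.** Let `G` be a finite graph in which the neighbours of each vertex are
covered by two large rigid sets through the vertex, or by one such set and one further vertex. Then
the rank of `G` in the generic rigidity matroid of `ℝ³` is the minimum of
`∑_i rk |X_i| - ∑_{i<j} rk |X_i ∩ X_j|` over all two-fold covers `X` of `G`, where `rk n` is the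
rank of the complete graph with `n` vertices. Hence such a graph with at least three vertices is
generically rigid in `ℝ³` if and only if this number is at least `3 |V| - 6` for each two-fold
cover.

All claw-free graphs of minimum degree at least three in which no edge is contained in exactly one
or in exactly two triangles are graphs of this kind. -/
theorem result :
    (∀ (V : Type) [Fintype V] [DecidableEq V] (G : SimpleGraph V), TwoRigidNeighbourhoods G →
      IsLeast {m : ℕ | ∃ (k : ℕ) (X : Fin k → Finset V), TwoFoldCover G X ∧
        m + ∑ q ∈ univ.filter (fun q : Fin k × Fin k => q.1 < q.2), rk (X q.1 ∩ X q.2).card =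
          ∑ i, rk (X i).card} (genRank 3 G) ∧
      (3 ≤ Fintype.card V → (GenRigid 3 G ↔
        ∀ (k : ℕ) (X : Fin k → Finset V), TwoFoldCover G X →
          3 * Fintype.card V +
            ∑ q ∈ univ.filter (fun q : Fin k × Fin k => q.1 < q.2), rk (X q.1 ∩ X q.2).card ≤
            ∑ i, rk (X i).card + 6))) ∧
    (∀ (V : Type) [Fintype V] (G : SimpleGraph V), ClawFree G →
      (∀ v, 3 ≤ {w | G.Adj v w}.ncard) → (∀ u v, G.Adj u v → triangles G u v ≠ 1 ∧
        triangles G u v ≠ 2) → TwoRigidNeighbourhoods G) := by
  constructor
  · intro V _ _ G hloc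
    obtain ⟨p, hp⟩ := exists_mg V 3
    have hlocp : Pool.Agent.Y647.RG.LocalAt G p := by
      intro v
      obtain ⟨X, Y, ⟨h1, h2⟩, h3, h4⟩ := hloc v
      refine ⟨X, Y, h1, ⟨(hp.toGen.genRigid_induce_iff G _).1 h2.2, h2.1⟩, ?_, h4⟩
      exact h3.imp (fun h => ⟨h.1, (hp.toGen.genRigid_induce_iff G _).1 h.2.2, h.2.1⟩) id
    have hle : ∀ (k : ℕ) (X : Fin k → Finset V), TwoFoldCover G X →
        genRank 3 G + ∑ q ∈ univ.filter (fun q : Fin k × Fin k => q.1 < q.2),
          rk (X q.1 ∩ X q.2).card ≤ ∑ i, rk (X i).card := by
      intro k X hX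
      have h1 := Pool.Agent.Y647.RG.upper (twoFold_of hX.1) (G := G) hX.2
      have h2 := offDiag_sum (fun i j : Fin k => rk (X i ∩ X j).card)
        (fun i j => by rw [Finset.inter_comm])
      simp only [rho_eq] at h1
      omega
    have heq : ∃ (k : ℕ) (X : Fin k → Finset V), TwoFoldCover G X ∧
        genRank 3 G + ∑ q ∈ univ.filter (fun q : Fin k × Fin k => q.1 < q.2),
          rk (X q.1 ∩ X q.2).card = ∑ i, rk (X i).card := by
      obtain ⟨C, _, _, Y, h1, h2, h3⟩ := Pool.Agent.Y647.RG.main_local hp hlocp
      let e := Fintype.equivFin C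
      refine ⟨Fintype.card C, fun i => Y (e.symm i), ⟨?_, ?_⟩, ?_⟩
      · intro v
        have h4 : {i | v ∈ Y (e.symm i)} =
            (((univ.filter fun c => v ∈ Y c).map e.toEmbedding : Finset (Fin _)) :
              Set (Fin (Fintype.card C))) := by
          ext i
          simp only [Set.mem_ofPred_eq, Finset.coe_map, Set.mem_image, Finset.mem_coe,
            Finset.mem_filter, Finset.mem_univ, true_and, Equiv.coe_toEmbedding]
          constructor
          · intro h
            exact ⟨e.symm i, h, e.apply_symm_apply i⟩
          · rintro ⟨c, hc, rfl⟩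
            rw [e.symm_apply_apply]
            exact hc
        rw [h4, Set.ncard_coe_finset, Finset.card_map]
        exact h1 v
      · intro u v huv
        obtain ⟨c, hc⟩ := h2 u v huv
        refine ⟨e c, ?_⟩
        show u ∈ Y (e.symm (e c)) ∧ v ∈ Y (e.symm (e c))
        rw [e.symm_apply_apply]
        exact hc
      · have h5 := offDiag_sum (fun i j => rk (Y (e.symm i) ∩ Y (e.symm j)).card)
          (fun i j => by rw [Finset.inter_comm])
        have h6 : ∑ i, rk (Y (e.symm i)).card = ∑ c, rk (Y c).card :=
          Equiv.sum_comp e.symm fun c => rk (Y c).card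
        have h7 : ∑ q ∈ (univ : Finset (Fin (Fintype.card C))).offDiag,
            rk (Y (e.symm q.1) ∩ Y (e.symm q.2)).card =
            ∑ q ∈ (univ : Finset C).offDiag, rk (Y q.1 ∩ Y q.2).card := by
          apply Finset.sum_bij' (fun q _ => (e.symm q.1, e.symm q.2)) (fun q _ => (e q.1, e q.2))
          · intro q hq
            rw [Finset.mem_offDiag] at hq ⊢
            exact ⟨Finset.mem_univ _, Finset.mem_univ _, fun h => hq.2.2 (e.symm.injective h)⟩
          · intro q hq
            rw [Finset.mem_offDiag] at hq ⊢
            exact ⟨Finset.mem_univ _, Finset.mem_univ _, fun h => hq.2.2 (e.injective h)⟩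
          · intro q _
            simp
          · intro q _
            simp
          · intro q _
            rfl
        simp only [rho_eq] at h3
        rw [h7] at h5
        show _ + ∑ q ∈ univ.filter
          (fun q : Fin (Fintype.card C) × Fin (Fintype.card C) => q.1 < q.2),
            rk (Y (e.symm q.1) ∩ Y (e.symm q.2)).card = ∑ i, rk (Y (e.symm i)).card
        rw [h6]
        omega
    refine ⟨⟨heq, ?_⟩, ?_⟩
    · rintro m ⟨k, X, hX, hm⟩
      have := hle k X hX
      omega
    · intro hV
      rw [genRigid_iff hp hV]
      have h2 := genRank_add hp G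
      constructor
      · intro h k X hX
        have := hle k X hX
        omega
      · intro h
        obtain ⟨k, X, hX, hm⟩ := heq
        have := h k X hX
        omega
  · intro V _ G hc hd ht
    classical
    obtain ⟨p, hp⟩ := exists_mg V 3
    have hset : ∀ u v, triangles G u v = (Pool.Agent.Y647.RG.cn G u v).card := by
      intro u v
      unfold triangles
      rw [← Set.ncard_coe_finset]
      congr 1
      ext w
      rw [Finset.mem_coe, Pool.Agent.Y647.RG.mem_cn]
      exact Iff.rfl
    have h1 := Pool.Agent.Y647.RG.claw_local hp.toGen (G := G) hc (by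
      intro v
      have h := hd v
      have h2 : {w | G.Adj v w} = ((univ.filter fun w => G.Adj v w : Finset V) : Set V) := by
        ext w
        simp
      rw [h2, Set.ncard_coe_finset] at h
      exact h) (by
      intro u v huv
      have h := ht u v huv
      rw [hset] at h
      omega)
    intro v
    obtain ⟨X, Y, e1, e2, e3, e4⟩ := h1 v
    refine ⟨X, Y, ⟨e1, e2.2, (hp.toGen.genRigid_induce_iff G _).2 e2.1⟩, ?_, e4⟩
    exact e3.imp (fun h => ⟨h.1, h.2.2, (hp.toGen.genRigid_induce_iff G _).2 h.2.1⟩) id

end Pool.Agent.Results.MP_37c7bf_co.ClawFreeRank
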