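import Mathlib
import Pool.Agent.Y647.RG.Ring

/-!
# A Lovász–Yemini type theorem in three-space

Every `5`-connected claw-free graph each edge of which is in at least three triangles is generically
rigid in `ℝ³`; more generally, so is every `5`-connected graph in which the neighbours of each
vertex are covered by two rigid subgraphs through it with at least five vertices. Five cannot be
replaced by four, however many triangles each edge is in.
-/

set_option autoImplicit false

namespace Pool.Agent.Results.MP_37c7bf_co.FiveConnected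

open Finset Pool.Agent.H789R5 Pool.Agent.H283R2.DR

/-- no vertex has three pairwise non-adjacent neighbours -/
def ClawFree {V : Type} (G : SimpleGraph V) : Prop :=
  ∀ v a b c, G.Adj v a → G.Adj v b → G.Adj v c → a ≠ b → a ≠ c → b ≠ c →
    G.Adj a b ∨ G.Adj a c ∨ G.Adj b c

/-- the number of triangles which contain the edge `u v` -/
noncomputable def triangles {V : Type} (G : SimpleGraph V) (u v : V) : ℕ :=
  {w | G.Adj u w ∧ G.Adj v w}.ncard

/-- removing fewer than `k` vertices always leaves a (nonempty) connected graph -/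
def KConnected {V : Type} (k : ℕ) (G : SimpleGraph V) : Prop :=
  ∀ S : Finset V, S.card < k → (G.induce (S : Set V)ᶜ).Connected

theorem conn5_of {V : Type} [Fintype V] [DecidableEq V] {G : SimpleGraph V}
    (h : KConnected 5 G) : Pool.Agent.Y647.RG.Conn5 G := by
  intro S hS A B hAB hA hB hSA hSB hd
  obtain ⟨a0, ha0⟩ := hA
  obtain ⟨b0, hb0⟩ := hB
  by_contra hcon
  push Not at hcon
  have ha0' : a0 ∈ (S : Set V)ᶜ := fun h' => Finset.disjoint_left.1 hSA h' ha0
  have hb0' : b0 ∈ (S : Set V)ᶜ := fun h' => Finset.disjoint_left.1 hSB h' hb0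
  have h1 : ∀ x y : ((S : Set V)ᶜ : Set V), (G.induce (S : Set V)ᶜ).Reachable x y →
      (x : V) ∈ A → (y : V) ∈ A := by
    rintro x y ⟨w⟩
    induction w with
    | nil => exact id
    | @cons x y z hxy _ ih =>
      intro hx
      apply ih
      rcases hAB y with h' | h' | h'
      · exact absurd h' y.2
      · exact h'
      · exact absurd (show G.Adj (x : V) (y : V) from hxy) (hcon _ hx _ h')
  have h2 := h1 ⟨a0, ha0'⟩ ⟨b0, hb0'⟩ ((h S (by omega)).preconnected _ _) ha0
  exact Finset.disjoint_left.1 hd h2 hb0

/-- **A Lovász–Yemini type theorem in three-space.**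

(1) Let `G` be a finite `5`-connected graph such that for each vertex `v` there are two sets `X` and
`Y` of at least five vertices which contain `v`, induce generically rigid graphs, and together
contain all neighbours of `v`. Then `G` is generically rigid in `ℝ³`.

(2) Every finite `5`-connected claw-free graph each edge of which is in at least three triangles is
generically rigid in `ℝ³`.

(3) The bound on the connectivity is best possible: for every `k` there is a finite `4`-connected
claw-free graph each edge of which is in at least `k` triangles and which is not generically rigid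
in `ℝ³`. -/
theorem result :
    (∀ (V : Type) [Fintype V] (G : SimpleGraph V), KConnected 5 G →
      (∀ v, ∃ X Y : Finset V,
        (v ∈ X ∧ 5 ≤ X.card ∧ GenRigid 3 (G.induce (X : Set V))) ∧
        (v ∈ Y ∧ 5 ≤ Y.card ∧ GenRigid 3 (G.induce (Y : Set V))) ∧
        ∀ w, G.Adj v w → w ∈ X ∨ w ∈ Y) → GenRigid 3 G) ∧
    (∀ (V : Type) [Fintype V] (G : SimpleGraph V), KConnected 5 G → ClawFree G →
      (∀ u v, G.Adj u v → 3 ≤ triangles G u v) → GenRigid 3 G) ∧
    ∀ k : ℕ, ∃ (V : Type) (_ : Fintype V) (G : SimpleGraph V), KConnected 4 G ∧ ClawFree G ∧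
      (∀ u v, G.Adj u v → k ≤ triangles G u v) ∧ ¬ GenRigid 3 G := by
  refine ⟨?_, ?_, ?_⟩
  · intro V _ G hG hloc
    classical
    obtain ⟨p, hp⟩ := exists_mg V 3
    have hne : Nonempty V := by
      obtain ⟨x⟩ := (hG ∅ (by simp)).nonempty
      exact ⟨x⟩
    have h1 := Pool.Agent.Y647.RG.rigid5 (G := G) hp (by
      intro v
      obtain ⟨X, Y, ⟨e1, e2, e3⟩, ⟨e4, e5, e6⟩, e7⟩ := hloc v
      exact ⟨X, Y, ⟨e1, (hp.toGen.genRigid_induce_iff G _).1 e3, e2⟩,
        ⟨e4, (hp.toGen.genRigid_induce_iff G _).1 e6, e5⟩, e7⟩) (conn5_of hG)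
    exact ⟨p, (rigidOn_univ_iff G p).1 h1⟩
  · intro V _ G hG hc ht
    classical
    obtain ⟨p, hp⟩ := exists_mg V 3
    have hne : Nonempty V := by
      obtain ⟨x⟩ := (hG ∅ (by simp)).nonempty
      exact ⟨x⟩
    have hset : ∀ u v, triangles G u v = (Pool.Agent.Y647.RG.cn G u v).card := by
      intro u v
      unfold triangles
      rw [← Set.ncard_coe_finset]
      congr 1
      ext w
      rw [Finset.mem_coe, Pool.Agent.Y647.RG.mem_cn]
      exact Iff.rfl
    have hd : ∀ v, 3 ≤ (univ.filter fun w => G.Adj v w).card := by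
      intro v
      obtain ⟨⟨y, hy⟩⟩ := (hG {v} (by simp)).nonempty
      have hyv : y ≠ v := by
        rw [Set.mem_compl_iff, Finset.mem_coe, Finset.mem_singleton] at hy
        exact hy
      obtain ⟨a, ha, b, -, hab⟩ := conn5_of hG ∅ (by simp) {v} (univ.erase v)
        (fun x => by
          rw [Finset.mem_singleton, Finset.mem_erase]
          by_cases h : x = v
          · exact Or.inr (Or.inl h)
          · exact Or.inr (Or.inr ⟨h, Finset.mem_univ _⟩))
        ⟨v, Finset.mem_singleton_self v⟩ ⟨y, Finset.mem_erase.2 ⟨hyv, Finset.mem_univ _⟩⟩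
        (Finset.disjoint_empty_left _) (Finset.disjoint_empty_left _)
        (by
          rw [Finset.disjoint_left]
          intro x hx hx'
          rw [Finset.mem_singleton] at hx
          exact (Finset.mem_erase.1 hx').1 hx)
      rw [Finset.mem_singleton] at ha
      subst ha
      have h1 := ht a b hab
      rw [hset] at h1
      refine h1.trans (Finset.card_le_card ?_)
      intro w hw
      rw [Pool.Agent.Y647.RG.mem_cn] at hw
      exact Finset.mem_filter.2 ⟨Finset.mem_univ _, hw.1⟩
    have h1 := Pool.Agent.Y647.RG.rigid5 (G := G) hp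
      (Pool.Agent.Y647.RG.local5_of_claw hp.toGen hc hd (fun u v huv => by
        rw [← hset]
        exact ht u v huv)) (conn5_of hG)
    exact ⟨p, (rigidOn_univ_iff G p).1 h1⟩
  · intro k
    refine ⟨_, inferInstance, Pool.Agent.Y647.RG.ring k, ?_, Pool.Agent.Y647.RG.ring_claw k, ?_,
      Pool.Agent.Y647.RG.ring_not_rigid k⟩
    · intro S hS
      exact Pool.Agent.Y647.RG.ring_connected k S (by omega)
    · intro u v huv
      have h1 := Pool.Agent.Y647.RG.ring_triangles k huv
      unfold triangles
      omega

end Pool.Agent.Results.MP_37c7bf_co.FiveConnected
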