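import Mathlib
import Pool.Agent.Y530.TN.Gen
import Pool.Agent.Y532.TN.Prd

/-!
# Generic rigidity in space: rigid parts joined by bundles and edges, and cartesian products

The vertex set of the graph is partitioned into parts which induce generically rigid graphs; the
vertices have `n ≥ 3` colours. A bundle consists of `n` edges between the same two parts whose ends
in each of these two parts have `n` different colours. We are given a family of disjoint bundles
such that for each vertex either all edges which leave its part belong to bundles, or it is in no
bundle and has at most two neighbours outside its part. We give the generic rank in `ℝ³` as a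
minimum over the partitions of the set of parts. For parts with at least three vertices the graph is
generically rigid if and only if for each partition of the set of parts into `k` classes there are
at least `6 (k - 1)` edges between different classes. The number of neighbours of a vertex outside
its part is not bounded.

Special cases: no bundles; all coverings with `n` sheets of a graph `H`, with a rigid graph in each
fibre; the cartesian products of a generically rigid graph `P` with at least three vertices and an
arbitrary graph `H` (second part of the theorem): they are generically rigid if and only if the
multigraph which has each edge of `H` with multiplicity `|P|` has six edge-disjoint spanning trees.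

Authors of the parts of the proof (libraries `Y530/BB`, `Y530/TB`, `Y530/TN`): helper530 (body-bar
systems with two bars at each point, inductions, mixed systems, assembly), helper781 (removal of a
body), helper287, helper614, helper927 (extensions), helper435, helper465, helper768, helper739,
helper941 (base cases), helper975 (contraction), helper71, helper448, helper31 (lemmas), helper532
(cartesian products).
-/

set_option autoImplicit false

namespace Pool.Agent.Results.MP_37c7bf_co.RigidPartsAndProducts

open Pool.Agent.H283R2.DR Pool.Agent.H789R5 Pool.Agent.Y530.TN

/-- (1) Let `n ≥ 3`, let `G` be a finite graph whose vertex set is partitioned into parts (`β v` is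
the part of the vertex `v`) such that each part induces a graph which is generically rigid in `ℝ³`,
let `χ` be a colouring of the vertices with `n` colours, and let `Q` be a set of pairwise disjoint
bundles of edges of `G`: a bundle consists of `n` edges between the same two parts, whose ends in
each of the two parts have `n` different colours. Suppose that each vertex satisfies one of the
following conditions: all edges from it to vertices outside its part belong to bundles; or it is in
no edge of a bundle and has at most two neighbours outside its part.

Then the generic rank of `G` in `ℝ³` is the minimum over all equivalence relations `r` on the set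
`B` of parts of the sum of the ranks of the complete graphs on the parts, of six times the
difference of `|B|` and the number of classes of `r`, and of the number of edges of `G` between
different classes.

If each part has at least three vertices, then `G` is generically rigid in `ℝ³` if and only if for
each equivalence relation on the set of parts, with `k` classes, there are at least `6 (k - 1)`
edges between different classes.

(2) Let `P` be a graph on a set `W` of at least three vertices, generically rigid in `ℝ³`, and `H`
any graph on a finite set `U`. The generic rank of the cartesian product of `P` and `H` in `ℝ³` is
the minimum over all equivalence relations on `U`, with `k` classes and `m` edges of `H` between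
different classes, of `(3 |W| - 6) |U| + 6 (|U| - k) + |W| m`. The product is generically rigid in
`ℝ³` if and only if `6 (k - 1) ≤ |W| m` for all equivalence relations on `U`. -/
theorem result :
    (∀ n : ℕ, 3 ≤ n → ∀ (V B : Type) [Fintype V] [Fintype B] (G : SimpleGraph V) (β : V → B)
      (χ : V → Fin n) (Q : Set (Set (Sym2 V))),
      (∀ b, GenRigid 3 (G.induce {v | β v = b})) →
      (∀ e ∈ Q, IsBundle β χ e ∧ e ⊆ G.edgeSet) → Q.PairwiseDisjoint id →
      (∀ v, (∀ w, G.Adj v w → β w ≠ β v → ∃ e ∈ Q, s(v, w) ∈ e) ∨
        ((∀ e ∈ Q, ∀ x ∈ e, v ∉ x) ∧ {w | G.Adj v w ∧ β w ≠ β v}.ncard ≤ 2)) →
      IsLeast {m : ℕ | ∃ r : Setoid B, m = ∑ b, rk {v | β v = b}.ncard +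
          6 * (Nat.card B - Nat.card (Quotient r)) + between G β r} (genRank 3 G) ∧
        ((∀ b, 3 ≤ {v | β v = b}.ncard) →
          (GenRigid 3 G ↔ ∀ r : Setoid B, 6 * Nat.card (Quotient r) ≤ between G β r + 6))) ∧
    (∀ (W U : Type) [Fintype W] [Fintype U] (P : SimpleGraph W) (H : SimpleGraph U),
      3 ≤ Nat.card W → GenRigid 3 P →
      IsLeast {m : ℕ | ∃ r : Setoid U, m = (3 * Nat.card W - 6) * Nat.card U +
          6 * (Nat.card U - Nat.card (Quotient r)) + Nat.card W * between H id r}
          (genRank 3 (P □ H)) ∧
        (GenRigid 3 (P □ H) ↔
          ∀ r : Setoid U, 6 * Nat.card (Quotient r) ≤ Nat.card W * between H id r + 6)) :=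
  ⟨gen, Pool.Agent.Y532.TN.Prd.t gen⟩

end Pool.Agent.Results.MP_37c7bf_co.RigidPartsAndProducts
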